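import Pool.Agent.V8H66.GG.Stab

/-!
# The cyclic group generated by `a` is not a virtual retract of Gersten's group
-/

set_option autoImplicit false
set_option linter.unusedSectionVars false
set_option linter.unusedVariables false

namespace Pool.Agent.V8H66.GG

open SemidirectProduct

section abstract

variable {Γ : Type*} [Group Γ] (N : Subgroup Γ) [N.Normal] (f : Γ → ℤ)
  (hf : ∀ x ∈ N, ∀ y ∈ N, f (x * y) = f x + f y) (m : ℕ) (hm : ∀ x : Γ, x ^ m ∈ N)

include hf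

theorem f_one : f 1 = 0 := by
  have := hf 1 N.one_mem 1 N.one_mem
  rw [mul_one] at this
  omega

theorem f_inv {x : Γ} (hx : x ∈ N) : f x⁻¹ = - f x := by
  have := hf x hx x⁻¹ (N.inv_mem hx)
  rw [mul_inv_cancel, f_one N f hf] at this
  omega

theorem f_conj {x n : Γ} (hx : x ∈ N) (hn : n ∈ N) : f (n * x * n⁻¹) = f x := by
  rw [hf _ (N.mul_mem hn hx) _ (N.inv_mem hn), hf _ hn _ hx, f_inv N f hf hn]
  ring

include hm

/-- value on the conjugates of `x ^ m` -/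
theorem f_coset (x g h : Γ) (hgh : (QuotientGroup.mk g : Γ ⧸ N) = QuotientGroup.mk h) :
    f (g * x ^ m * g⁻¹) = f (h * x ^ m * h⁻¹) := by
  rw [QuotientGroup.eq] at hgh
  have h1 : h * x ^ m * h⁻¹ =
      (g * (g⁻¹ * h) * g⁻¹) * (g * x ^ m * g⁻¹) * (g * (g⁻¹ * h) * g⁻¹)⁻¹ := by group
  rw [h1]
  exact (f_conj N f hf (‹N.Normal›.conj_mem _ (hm x) g) (‹N.Normal›.conj_mem _ hgh g)).symm

noncomputable def Pf (x : Γ) (q : Γ ⧸ N) : ℤ := f (q.out * x ^ m * q.out⁻¹)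

theorem Pf_mk (x g : Γ) : Pf N f m x (QuotientGroup.mk g) = f (g * x ^ m * g⁻¹) := by
  unfold Pf
  exact f_coset N f hf m hm x _ _ (QuotientGroup.out_eq' _)

theorem Pf_mul {x y : Γ} (hxy : Commute x y) (q : Γ ⧸ N) :
    Pf N f m (x * y) q = Pf N f m x q + Pf N f m y q := by
  unfold Pf
  rw [hxy.mul_pow]
  have : q.out * (x ^ m * y ^ m) * q.out⁻¹ = (q.out * x ^ m * q.out⁻¹) * (q.out * y ^ m * q.out⁻¹) := by
    group
  rw [this, hf]
  · exact ‹N.Normal›.conj_mem _ (hm x) _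
  · exact ‹N.Normal›.conj_mem _ (hm y) _

theorem Pf_conj (x h : Γ) (q : Γ ⧸ N) :
    Pf N f m (h * x * h⁻¹) q = Pf N f m x (q * QuotientGroup.mk h) := by
  obtain ⟨g, rfl⟩ := QuotientGroup.mk_surjective q
  rw [← QuotientGroup.mk_mul, Pf_mk N f hf m hm, Pf_mk N f hf m hm, conj_pow]
  congr 1
  group

theorem sum_conj [Finite (Γ ⧸ N)] [Fintype (Γ ⧸ N)] (x h : Γ) :
    ∑ q : Γ ⧸ N, Pf N f m (h * x * h⁻¹) q ^ 2 = ∑ q : Γ ⧸ N, Pf N f m x q ^ 2 := by
  simp_rw [Pf_conj N f hf m hm]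
  exact Equiv.sum_comp (Equiv.mulRight (QuotientGroup.mk h : Γ ⧸ N)) (fun q => Pf N f m x q ^ 2)

/-- if `t`, `a t` and `a² t` are conjugate and `a`, `t` commute then `f (a ^ m) = 0` -/
theorem f_eq_zero [Finite (Γ ⧸ N)] {x t g h : Γ} (hc : Commute x t)
    (h1 : g * t * g⁻¹ = x * t) (h2 : h * t * h⁻¹ = x ^ 2 * t) : f (x ^ m) = 0 := by
  have : Fintype (Γ ⧸ N) := Fintype.ofFinite _
  have e1 := sum_conj N f hf m hm t g
  have e2 := sum_conj N f hf m hm t h
  rw [h1] at e1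
  rw [h2, sq, mul_assoc] at e2
  have c1 : ∀ q, Pf N f m (x * t) q = Pf N f m x q + Pf N f m t q := Pf_mul N f hf m hm hc
  have c2 : ∀ q, Pf N f m (x * (x * t)) q = Pf N f m x q + (Pf N f m x q + Pf N f m t q) := by
    intro q
    rw [Pf_mul N f hf m hm ((Commute.refl x).mul_right hc), c1]
  simp_rw [c1] at e1
  simp_rw [c2] at e2
  have e3 : ∑ q : Γ ⧸ N, Pf N f m x q ^ 2 = 0 := by
    have e4 : ∑ q : Γ ⧸ N, (2 * Pf N f m x q ^ 2) =
        ∑ q : Γ ⧸ N, ((Pf N f m x q + (Pf N f m x q + Pf N f m t q)) ^ 2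
          - 2 * (Pf N f m x q + Pf N f m t q) ^ 2 + Pf N f m t q ^ 2) := by
      apply Finset.sum_congr rfl
      intro q _
      ring
    rw [Finset.sum_add_distrib, Finset.sum_sub_distrib, ← Finset.mul_sum, ← Finset.mul_sum, e1, e2] at e4
    linarith
  have e5 := (Finset.sum_eq_zero_iff_of_nonneg (fun q _ => sq_nonneg _)).1 e3
    (QuotientGroup.mk (1 : Γ)) (Finset.mem_univ _)
  have e6 : Pf N f m x (QuotientGroup.mk (1 : Γ)) = 0 := by
    exact pow_eq_zero_iff (two_ne_zero) |>.1 e5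
  rw [Pf_mk N f hf m hm] at e6
  simpa using e6

end abstract

abbrev ga : G := inl a
abbrev gt : G := inr (Multiplicative.ofAdd 1)

theorem inr_inl (x : F) : gt * inl x = inl (tau x) * gt := by
  ext
  · simp [SemidirectProduct.mul_left, phi_one]
  · simp [SemidirectProduct.mul_right]

theorem ga_comm : Commute ga gt := by
  show ga * gt = gt * ga
  rw [inr_inl]
  rfl

theorem conj_b : (inl b)⁻¹ * gt * ((inl b)⁻¹)⁻¹ = ga * gt := by
  rw [inv_inv, mul_assoc, inr_inl, tau_apply, tau_b, map_mul]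
  group

theorem conj_c : (inl c)⁻¹ * gt * ((inl c)⁻¹)⁻¹ = ga ^ 2 * gt := by
  rw [inv_inv, mul_assoc, inr_inl, tau_apply, tau_c, map_mul, map_pow]
  group

theorem not_retract : ¬ ∃ K : Subgroup G, K.FiniteIndex ∧ Subgroup.zpowers ga ≤ K ∧
      ∃ r : ↥K →* G, (∀ k : ↥K, r k ∈ Subgroup.zpowers ga) ∧
        (∀ k : ↥K, (k : G) ∈ Subgroup.zpowers ga → r k = (k : G)) := by
  classical
  rintro ⟨K, hK, haK, r, hr1, hr2⟩
  -- the additive function
  let f : G → ℤ := fun x => if hx : x ∈ K then Multiplicative.toAdd (alpha (r ⟨x, hx⟩).left) else 0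
  have hright : ∀ k : K, (r k).right = 1 := by
    intro k
    obtain ⟨j, hj⟩ := Subgroup.mem_zpowers_iff.1 (hr1 k)
    rw [← hj, ← map_zpow]
    rfl
  have hfK : ∀ x ∈ K, ∀ y ∈ K, f (x * y) = f x + f y := by
    intro x hx y hy
    simp only [f, dif_pos hx, dif_pos hy, dif_pos (K.mul_mem hx hy)]
    have h1 : r ⟨x * y, K.mul_mem hx hy⟩ = r ⟨x, hx⟩ * r ⟨y, hy⟩ := by
      rw [← map_mul]; rfl
    rw [h1, SemidirectProduct.mul_left, hright, map_one, MulAut.one_apply, map_mul, toAdd_mul]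
  have hN : K.normalCore ≤ K := Subgroup.normalCore_le K
  have hfin : K.normalCore.FiniteIndex := inferInstance
  have : Finite (G ⧸ K.normalCore) := Subgroup.finite_quotient_of_finiteIndex
  have hm : ∀ x : G, x ^ K.normalCore.index ∈ K.normalCore := fun x => Subgroup.pow_index_mem _ x
  have h0 := f_eq_zero K.normalCore f (fun x hx y hy => hfK x (hN hx) y (hN hy)) _ hm
    ga_comm conj_b conj_c
  set m := K.normalCore.index with hmdef
  have hmem : ga ^ m ∈ Subgroup.zpowers ga := Subgroup.pow_mem _ (Subgroup.mem_zpowers _) _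
  have hmK : ga ^ m ∈ K := haK hmem
  simp only [f, dif_pos hmK] at h0
  rw [hr2 ⟨ga ^ m, hmK⟩ hmem] at h0
  have h1 : (ga ^ m).left = a ^ m := by
    rw [← map_pow]; rfl
  simp only [h1] at h0
  rw [map_pow, alpha_a, toAdd_pow, toAdd_ofAdd] at h0
  simp only [nsmul_eq_mul, mul_one, Nat.cast_eq_zero] at h0
  exact hfin.index_ne_zero (hmdef ▸ h0)

end Pool.Agent.V8H66.GG
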