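import Pool.Agent.V8H66.GG.Stab
import Pool.Agent.Helper310.Step

/-!
# Gersten's group is cyclic subgroup separable
-/

set_option autoImplicit false
set_option linter.unusedSectionVars false
set_option linter.unusedVariables false

namespace Pool.Agent.V8H66.GG

open SemidirectProduct Pointwise

/-- cyclic subgroups of the free group are separable -/
theorem sepF {x y : F} (h : y ∉ Subgroup.zpowers x) :
    ∃ M : Subgroup F, M.FiniteIndex ∧ Subgroup.zpowers x ≤ M ∧ y ∉ M := by
  by_cases h0 : (Subgroup.zpowers x).index = 0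
  · obtain ⟨N, h1, h2, h3⟩ := Pool.Agent.Helper310.Step.step (FreeGroupBasis.ofFreeGroup (Fin 3))
      (Subgroup.zpowers x) ((Subgroup.fg_iff _).2 ⟨{x}, by rw [Subgroup.zpowers_eq_closure], Set.finite_singleton x⟩)
      h0 y h
    exact ⟨N, ⟨h3.ne_zero⟩, h1, h2⟩
  · exact ⟨_, ⟨h0⟩, le_rfl, h⟩

instance finiteHom (P : Type) [Group P] [Finite P] : Finite (F →* P) :=
  Finite.of_equiv (Fin 3 → P) FreeGroup.lift

/-- a subgroup of finite index contains a characteristic subgroup of finite index -/
theorem exists_char (M : Subgroup F) (hM : M.FiniteIndex) :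
    ∃ N : Subgroup F, N ≤ M ∧ N.FiniteIndex ∧ N.Normal ∧ ∀ (α : MulAut F), ∀ x ∈ N, α x ∈ N := by
  have hf : Finite (F ⧸ M.normalCore) := Subgroup.finite_quotient_of_finiteIndex
  let P := F ⧸ M.normalCore
  let Φ : F →* ((F →* P) → P) := MonoidHom.pi (fun ψ => ψ)
  refine ⟨Φ.ker, ?_, inferInstance, inferInstance, ?_⟩
  · intro x hx
    have h1 : Φ x (QuotientGroup.mk' M.normalCore) = 1 := by
      rw [MonoidHom.mem_ker.1 hx]; rfl
    have h2 : x ∈ M.normalCore := (QuotientGroup.eq_one_iff x).1 h1
    exact Subgroup.normalCore_le M h2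
  · intro α x hx
    rw [MonoidHom.mem_ker]
    funext ψ
    have h1 : Φ x (ψ.comp α.toMonoidHom) = 1 := by
      rw [MonoidHom.mem_ker.1 hx]; rfl
    exact h1

theorem exists_period (N : Subgroup F) (hN : N.FiniteIndex) [N.Normal] (α : MulAut F) :
    ∃ m : ℕ, 1 ≤ m ∧ ∀ z : F, z⁻¹ * (α ^ m) z ∈ N := by
  have hf : Finite (F ⧸ N) := Subgroup.finite_quotient_of_finiteIndex
  obtain ⟨i, j, hij, he⟩ := Finite.exists_ne_map_eq_of_infinite
    (fun k : ℕ => (QuotientGroup.mk' N).comp (α ^ k).toMonoidHom)
  wlog hlt : i < j generalizing i j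
  · exact this j i hij.symm he.symm (lt_of_le_of_ne (not_lt.1 hlt) hij.symm)
  refine ⟨j - i, by omega, fun z => ?_⟩
  rw [← QuotientGroup.eq]
  have h1 := DFunLike.congr_fun he (((α ^ i)⁻¹ : MulAut F) z)
  have h2 : (α ^ i) (((α ^ i)⁻¹ : MulAut F) z) = z := MulAut.apply_inv_self _ _ _
  have h3 : (α ^ j) (((α ^ i)⁻¹ : MulAut F) z) = (α ^ (j - i)) z := by
    have : α ^ j = α ^ (j - i) * α ^ i := by rw [← pow_add]; congr 1; omega
    rw [this, MulAut.mul_apply, h2]
  have h4 : (QuotientGroup.mk ((α ^ i) (((α ^ i)⁻¹ : MulAut F) z)) : F ⧸ N) =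
      QuotientGroup.mk ((α ^ j) (((α ^ i)⁻¹ : MulAut F) z)) := h1
  rwa [h2, h3] at h4

theorem finiteIndex_of (K : Subgroup G) (h1 : (K.comap (inl : F →* G)).FiniteIndex)
    (h2 : (K.map (rightHom : G →* Multiplicative ℤ)).FiniteIndex) : K.FiniteIndex := by
  have f1 : Finite (F ⧸ K.comap (inl : F →* G)) := Subgroup.finite_quotient_of_finiteIndex
  have f2 : Finite (Multiplicative ℤ ⧸ K.map (rightHom : G →* Multiplicative ℤ)) :=
    Subgroup.finite_quotient_of_finiteIndex
  rw [Subgroup.finiteIndex_iff_finite_quotient]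
  refine Finite.of_surjective (fun p : (Multiplicative ℤ ⧸ K.map (rightHom : G →* Multiplicative ℤ)) ×
    (F ⧸ K.comap (inl : F →* G)) => (QuotientGroup.mk (inr p.1.out * inl p.2.out) : G ⧸ K)) ?_
  intro q
  obtain ⟨x, rfl⟩ := QuotientGroup.mk_surjective q
  set ρ : Multiplicative ℤ ⧸ K.map (rightHom : G →* Multiplicative ℤ) := QuotientGroup.mk x.right with hρ
  have e1 : (ρ.out)⁻¹ * x.right ∈ K.map (rightHom : G →* Multiplicative ℤ) := by
    rw [← QuotientGroup.eq, QuotientGroup.out_eq']
  obtain ⟨κ, hκ, hκ'⟩ := e1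
  have hκ'' : κ.right = (ρ.out)⁻¹ * x.right := hκ'
  let y : F := ((inr ρ.out)⁻¹ * x * κ⁻¹ : G).left
  have hy : (inr ρ.out)⁻¹ * x * κ⁻¹ = (inl y : G) := by
    ext
    · rfl
    · show (inr ρ.out : G)⁻¹.right * x.right * κ⁻¹.right = 1
      rw [SemidirectProduct.inv_right, SemidirectProduct.inv_right, hκ'', right_inr]
      group
  set σ : F ⧸ K.comap (inl : F →* G) := QuotientGroup.mk y with hσ
  have e2 : (σ.out)⁻¹ * y ∈ K.comap (inl : F →* G) := by
    rw [← QuotientGroup.eq, QuotientGroup.out_eq']
  have e3 : (inl ((σ.out)⁻¹ * y) : G) ∈ K := e2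
  refine ⟨(ρ, σ), ?_⟩
  show (QuotientGroup.mk (inr ρ.out * inl σ.out) : G ⧸ K) = QuotientGroup.mk x
  rw [QuotientGroup.eq]
  have e4 : (inr ρ.out * inl σ.out : G)⁻¹ * x = inl ((σ.out)⁻¹ * y) * κ := by
    have h5 : x = inr ρ.out * inl y * κ := by rw [← hy]; group
    conv_lhs => rw [h5]
    rw [map_mul, map_inv]
    group
  rw [e4]
  exact K.mul_mem e3 hκ

theorem finiteIndex_zpowers {k : Multiplicative ℤ} (hk : k ≠ 1) :
    (Subgroup.zpowers k).FiniteIndex := by
  refine ⟨?_⟩
  have h1 : (AddSubgroup.zmultiples (Multiplicative.toAdd k)).index ≠ 0 := by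
    rw [Int.index_zmultiples]
    intro h
    apply hk
    rw [Int.natAbs_eq_zero] at h
    exact h
  exact h1

theorem css (g h : G) (hh : h ∉ Subgroup.zpowers g) :
    ∃ K : Subgroup G, K.FiniteIndex ∧ Subgroup.zpowers g ≤ K ∧ h ∉ K := by
  by_cases hg : g.right = 1
  · -- `g` lies in the free group
    have hgl : g = inl g.left := by
      ext
      · rfl
      · exact hg
    by_cases hr : h.right = 1
    · have hhl : h = inl h.left := by
        ext
        · rfl
        · exact hr
      have hnot : h.left ∉ Subgroup.zpowers g.left := by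
        intro hc
        apply hh
        obtain ⟨j, hj⟩ := Subgroup.mem_zpowers_iff.1 hc
        rw [Subgroup.mem_zpowers_iff]
        refine ⟨j, ?_⟩
        rw [hhl, hgl, ← map_zpow, hj]
      obtain ⟨M, hM, hgM, hhM⟩ := sepF hnot
      obtain ⟨N, hNM, hNf, hNn, hNc⟩ := exists_char M hM
      obtain ⟨m, hm, hmN⟩ := exists_period N hNf tau
      -- powers of `tau ^ m` act trivially modulo `N`
      have hpow : ∀ (j : ℤ) (z : F), z⁻¹ * ((tau ^ m) ^ j) z ∈ N := by
        intro j
        induction j using Int.induction_on with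
        | zero => intro z; simp
        | succ n ih =>
          intro z
          rw [zpow_add_one, MulAut.mul_apply]
          have h1 := ih ((tau ^ m) z)
          have h2 := N.mul_mem (hmN z) h1
          rwa [mul_assoc, mul_inv_cancel_left] at h2
        | pred n ih =>
          intro z
          rw [zpow_sub_one, MulAut.mul_apply]
          have h1 := ih (((tau ^ m)⁻¹ : MulAut F) z)
          have h2 := hmN (((tau ^ m)⁻¹ : MulAut F) z)
          rw [MulAut.apply_inv_self] at h2
          have h3 := N.mul_mem (N.inv_mem h2) h1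
          rwa [mul_inv_rev, inv_inv, mul_assoc, mul_inv_cancel_left] at h3
      let M' : Subgroup F := N ⊔ Subgroup.zpowers g.left
      have hM'M : M' ≤ M := sup_le hNM hgM
      have hNM' : N ≤ M' := le_sup_left
      have hφ : ∀ k ∈ Subgroup.zpowers (Multiplicative.ofAdd (m : ℤ)), ∀ z ∈ M', phi k z ∈ M' := by
        intro k hk z hz
        obtain ⟨j, rfl⟩ := Subgroup.mem_zpowers_iff.1 hk
        have h1 : phi (Multiplicative.ofAdd (m : ℤ) ^ j) = (tau ^ m) ^ j := by
          rw [map_zpow, phi_apply, toAdd_ofAdd, zpow_natCast]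
        rw [h1]
        have h2 := M'.mul_mem hz (hNM' (hpow j z))
        rwa [mul_inv_cancel_left] at h2
      let K : Subgroup G :=
        { carrier := {x | x.left ∈ M' ∧ x.right ∈ Subgroup.zpowers (Multiplicative.ofAdd (m : ℤ))}
          mul_mem' := by
            rintro x y ⟨hx1, hx2⟩ ⟨hy1, hy2⟩
            refine ⟨?_, ?_⟩
            · rw [SemidirectProduct.mul_left]
              exact M'.mul_mem hx1 (hφ _ hx2 _ hy1)
            · rw [SemidirectProduct.mul_right]
              exact Subgroup.mul_mem _ hx2 hy2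
          one_mem' := ⟨M'.one_mem, Subgroup.one_mem _⟩
          inv_mem' := by
            rintro x ⟨hx1, hx2⟩
            refine ⟨?_, ?_⟩
            · rw [SemidirectProduct.inv_left]
              exact hφ _ (Subgroup.inv_mem _ hx2) _ (M'.inv_mem hx1)
            · rw [SemidirectProduct.inv_right]
              exact Subgroup.inv_mem _ hx2 }
      refine ⟨K, ?_, ?_, ?_⟩
      · apply finiteIndex_of
        · have : K.comap (inl : F →* G) = M' := by
            ext x
            constructor
            · intro hx; exact hx.1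
            · intro hx; exact ⟨hx, Subgroup.one_mem _⟩
          rw [this]
          exact Subgroup.finiteIndex_of_le hNM'
        · have hz : (Subgroup.zpowers (Multiplicative.ofAdd (m : ℤ))).FiniteIndex := by
            apply finiteIndex_zpowers
            intro h0
            have h1 : (m : ℤ) = 0 := h0
            omega
          have : Subgroup.zpowers (Multiplicative.ofAdd (m : ℤ)) ≤
              K.map (rightHom : G →* Multiplicative ℤ) := by
            intro k hk
            exact ⟨inr k, ⟨M'.one_mem, hk⟩, rfl⟩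
          exact Subgroup.finiteIndex_of_le this
      · rw [Subgroup.zpowers_le]
        refine ⟨?_, ?_⟩
        · exact (le_sup_right : _ ≤ M') (Subgroup.mem_zpowers _)
        · rw [hg]; exact Subgroup.one_mem _
      · intro hK
        exact hhM (hM'M hK.1)
    · refine ⟨(Subgroup.zpowers (Multiplicative.ofAdd ((Multiplicative.toAdd h.right).natAbs + 1 : ℤ))).comap
        (rightHom : G →* Multiplicative ℤ), ?_, ?_, ?_⟩
      · have hz : (Subgroup.zpowers (Multiplicative.ofAdd
            ((Multiplicative.toAdd h.right).natAbs + 1 : ℤ))).FiniteIndex := by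
          apply finiteIndex_zpowers
          intro h0
          have h1 : ((Multiplicative.toAdd h.right).natAbs + 1 : ℤ) = 0 := h0
          omega
        refine ⟨?_⟩
        rw [Subgroup.index_comap_of_surjective _ rightHom_surjective]
        exact hz.index_ne_zero
      · rw [Subgroup.zpowers_le, Subgroup.mem_comap]
        show g.right ∈ _
        rw [hg]; exact Subgroup.one_mem _
      · intro hK
        have hK' : h.right ∈ Subgroup.zpowers
          (Multiplicative.ofAdd ((Multiplicative.toAdd h.right).natAbs + 1 : ℤ)) := hK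
        obtain ⟨j, hj⟩ := Subgroup.mem_zpowers_iff.1 hK'
        apply hr
        have h1 := congrArg Multiplicative.toAdd hj
        rw [toAdd_zpow, toAdd_ofAdd, smul_eq_mul] at h1
        have h3 : (Multiplicative.toAdd h.right) = 0 := by
          apply Int.eq_zero_of_abs_lt_dvd (m := ((Multiplicative.toAdd h.right).natAbs + 1 : ℤ))
          · exact Dvd.intro_left j h1
          · rw [Int.abs_eq_natAbs]; omega
        exact h3
  · by_cases hr : h.right ∈ Subgroup.zpowers g.right
    · obtain ⟨l, hl⟩ := Subgroup.mem_zpowers_iff.1 hr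
      have hne : (h * g ^ (-l)).left ≠ 1 := by
        intro h0
        apply hh
        rw [Subgroup.mem_zpowers_iff]
        refine ⟨l, ?_⟩
        have h1 : h * g ^ (-l) = 1 := by
          ext
          · exact h0
          · show (rightHom (h * g ^ (-l)) : Multiplicative ℤ) = 1
            rw [map_mul, map_zpow]
            show h.right * g.right ^ (-l) = 1
            rw [← hl, zpow_neg, mul_inv_cancel]
        rw [zpow_neg, mul_inv_eq_one] at h1
        exact h1.symm
      obtain ⟨M, hM, -, hhM⟩ := sepF (x := 1) (y := (h * g ^ (-l)).left) (by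
        rw [Subgroup.zpowers_one_eq_bot, Subgroup.mem_bot]; exact hne)
      obtain ⟨N, hNM, hNf, hNn, hNc⟩ := exists_char M hM
      have hNG : (N.map (inl : F →* G)).Normal := by
        refine ⟨?_⟩
        rintro _ ⟨n, hn, rfl⟩ x
        have h1 : x * inl n * x⁻¹ = inl (x.left * phi x.right n * x.left⁻¹) := by
          ext
          · simp [SemidirectProduct.mul_left, SemidirectProduct.mul_right, SemidirectProduct.inv_left]
          · simp [SemidirectProduct.mul_right]
        rw [h1]
        exact ⟨_, hNn.conj_mem _ (hNc (phi x.right) _ hn) _, rfl⟩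
      let K : Subgroup G := N.map (inl : F →* G) ⊔ Subgroup.zpowers g
      have hmem : ∀ x : G, x ∈ K → ∃ n ∈ N, ∃ j : ℤ, x = inl n * g ^ j := by
        intro x hx
        have hx' : x ∈ ((N.map (inl : F →* G) : Subgroup G) : Set G) * (Subgroup.zpowers g : Set G) := by
          rw [← Subgroup.normal_mul]
          exact hx
        obtain ⟨_, ⟨n, hn, rfl⟩, y, hy, rfl⟩ := hx'
        obtain ⟨j, rfl⟩ := Subgroup.mem_zpowers_iff.1 hy
        exact ⟨n, hn, j, rfl⟩
      refine ⟨K, ?_, le_sup_right, ?_⟩
      · apply finiteIndex_of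
        · have : N ≤ K.comap (inl : F →* G) := by
            intro n hn
            exact (le_sup_left : _ ≤ K) ⟨n, hn, rfl⟩
          exact Subgroup.finiteIndex_of_le this
        · have : Subgroup.zpowers g.right ≤ K.map (rightHom : G →* Multiplicative ℤ) := by
            rw [Subgroup.zpowers_le]
            exact ⟨g, (le_sup_right : _ ≤ K) (Subgroup.mem_zpowers g), rfl⟩
          have hz := finiteIndex_zpowers hg
          exact Subgroup.finiteIndex_of_le this
      · intro hK
        obtain ⟨n, hn, j, hj⟩ := hmem h hK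
        have h1 : h.right = g.right ^ j := by
          have := congrArg (rightHom : G →* Multiplicative ℤ) hj
          rw [map_mul, map_zpow, rightHom_inl, one_mul] at this
          exact this
        have h2 : j = l := by
          have h3 : g.right ^ j = g.right ^ l := by rw [← h1, hl]
          have h4 := congrArg Multiplicative.toAdd h3
          rw [toAdd_zpow, toAdd_zpow, smul_eq_mul, smul_eq_mul] at h4
          have h5 : Multiplicative.toAdd g.right ≠ 0 := hg
          exact mul_right_cancel₀ h5 h4
        subst h2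
        apply hhM
        apply hNM
        rw [hj, zpow_neg, mul_inv_cancel_right, left_inl]
        exact hn
    · refine ⟨(Subgroup.zpowers g.right).comap (rightHom : G →* Multiplicative ℤ), ?_, ?_, ?_⟩
      · have hz := finiteIndex_zpowers hg
        refine ⟨?_⟩
        rw [Subgroup.index_comap_of_surjective _ rightHom_surjective]
        exact hz.index_ne_zero
      · rw [Subgroup.zpowers_le]
        exact Subgroup.mem_zpowers g.right
      · intro hK
        exact hr hK

end Pool.Agent.V8H66.GG
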