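import Mathlib

/-!
# Gersten's free-by-cyclic group and its tree
-/

set_option autoImplicit false
set_option linter.unusedSectionVars false
set_option linter.unusedVariables false

namespace Pool.Agent.V8H66.GG

/-- free group on `a`, `b`, `c` -/
abbrev F := FreeGroup (Fin 3)

abbrev a : F := FreeGroup.of 0
abbrev b : F := FreeGroup.of 1
abbrev c : F := FreeGroup.of 2

def tauHom : F →* F := FreeGroup.lift ![a, b * a, c * a ^ 2]
def tauInv : F →* F := FreeGroup.lift ![a, b * a⁻¹, c * (a⁻¹) ^ 2]

theorem tau_a : tauHom a = a := by simp [tauHom]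
theorem tau_b : tauHom b = b * a := by simp [tauHom]
theorem tau_c : tauHom c = c * a ^ 2 := by simp [tauHom]
theorem taui_a : tauInv a = a := by simp [tauInv]
theorem taui_b : tauInv b = b * a⁻¹ := by simp [tauInv]
theorem taui_c : tauInv c = c * (a⁻¹) ^ 2 := by simp [tauInv]

theorem tau_comp : tauInv.comp tauHom = MonoidHom.id F := by
  ext i
  fin_cases i
  · show tauInv (tauHom a) = a
    rw [tau_a, taui_a]
  · show tauInv (tauHom b) = b
    rw [tau_b, map_mul, taui_a, taui_b, inv_mul_cancel_right]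
  · show tauInv (tauHom c) = c
    rw [tau_c, map_mul, map_pow, taui_a, taui_c, inv_pow, inv_mul_cancel_right]

theorem tau_comp' : tauHom.comp tauInv = MonoidHom.id F := by
  ext i
  fin_cases i
  · show tauHom (tauInv a) = a
    rw [taui_a, tau_a]
  · show tauHom (tauInv b) = b
    rw [taui_b, map_mul, map_inv, tau_a, tau_b, mul_inv_cancel_right]
  · show tauHom (tauInv c) = c
    rw [taui_c, map_mul, map_pow, map_inv, tau_a, tau_c, inv_pow, mul_inv_cancel_right]

/-- the automorphism `a ↦ a`, `b ↦ b a`, `c ↦ c a²` -/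
def tau : MulAut F := MonoidHom.toMulEquiv tauHom tauInv tau_comp tau_comp'

theorem tau_apply (x : F) : tau x = tauHom x := rfl

def phi : Multiplicative ℤ →* MulAut F := zpowersHom (MulAut F) tau

theorem phi_apply (k : Multiplicative ℤ) : phi k = tau ^ (Multiplicative.toAdd k) := rfl

theorem phi_one : phi (Multiplicative.ofAdd 1) = tau := by
  rw [phi_apply, toAdd_ofAdd, zpow_one]

/-- Gersten's group -/
abbrev G := F ⋊[phi] Multiplicative ℤ

/-- the elements `s` of the free group such that every power of `tau` maps `s` into `s ⟨a⟩` -/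
theorem tau_fix (k : ℤ) : (tau ^ k) a = a := by
  have h : tau ∈ MulAction.stabilizer (MulAut F) a := tau_a
  exact (MulAction.stabilizer (MulAut F) a).zpow_mem h k

theorem phi_a (k : Multiplicative ℤ) : phi k a = a := tau_fix _

theorem phi_a_zpow (k : Multiplicative ℤ) (j : ℤ) : phi k (a ^ j) = a ^ j := by
  rw [map_zpow, phi_a]

theorem tau_coset {s : F} {m : ℤ} (hs : tau s = s * a ^ m) (k : ℤ) :
    (tau ^ k) s = s * a ^ (m * k) := by
  have hs' : tau⁻¹ s = s * a ^ (-m) := by
    have : tau (s * a ^ (-m)) = s := by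
      rw [map_mul, hs, map_zpow, show tau a = a from tau_a, mul_assoc, ← zpow_add]
      simp
    conv_lhs => rw [← this]
    exact MulAut.inv_apply_self _ _ _
  induction k using Int.induction_on with
  | zero => simp
  | succ n ih =>
    rw [zpow_add_one, MulAut.mul_apply, hs, map_mul, ih, map_zpow, tau_fix, mul_assoc, ← zpow_add]
    congr 2; ring
  | pred n ih =>
    rw [zpow_sub_one, MulAut.mul_apply, hs', map_mul, ih, map_zpow, tau_fix, mul_assoc, ← zpow_add]
    congr 2; ring

theorem phi_of (k : Multiplicative ℤ) (i : Fin 3) :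
    ∃ j : ℤ, phi k (FreeGroup.of i) = FreeGroup.of i * a ^ j := by
  fin_cases i
  · exact ⟨0, by simpa using phi_a k⟩
  · exact ⟨1 * Multiplicative.toAdd k, tau_coset (s := b) (m := 1) (by rw [tau_apply, tau_b, zpow_one]) _⟩
  · exact ⟨2 * Multiplicative.toAdd k, tau_coset (s := c) (m := 2) (by
      rw [tau_apply, tau_c]; rfl) _⟩

/-! ### the vertices -/

abbrev V : Type := F ⧸ Subgroup.zpowers a

def cls (x : F) : V := QuotientGroup.mk x

theorem cls_eq {x y : F} : cls x = cls y ↔ ∃ j : ℤ, y = x * a ^ j := by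
  unfold cls
  rw [QuotientGroup.eq, Subgroup.mem_zpowers_iff]
  constructor
  · rintro ⟨j, hj⟩
    exact ⟨j, by rw [hj, mul_inv_cancel_left]⟩
  · rintro ⟨j, rfl⟩
    exact ⟨j, by rw [inv_mul_cancel_left]⟩

theorem cls_surj (v : V) : ∃ x, cls x = v := Quotient.exists_rep v

theorem cls_mul_zpow (x : F) (j : ℤ) : cls (x * a ^ j) = cls x :=
  (cls_eq.2 ⟨j, rfl⟩).symm

/-- the action on the free group -/
def act (g : G) (x : F) : F := g.left * phi g.right x

theorem act_one (x : F) : act 1 x = x := by simp [act]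

theorem act_mul (g h : G) (x : F) : act (g * h) x = act g (act h x) := by
  simp [act, SemidirectProduct.mul_left, SemidirectProduct.mul_right, mul_assoc]

theorem act_mul_right (g : G) (x y : F) : act g (x * y) = act g x * phi g.right y := by
  simp [act, mul_assoc]

theorem cls_act {g : G} {x y : F} (h : cls x = cls y) : cls (act g x) = cls (act g y) := by
  obtain ⟨j, rfl⟩ := cls_eq.1 h
  rw [act_mul_right, phi_a_zpow, cls_mul_zpow]

instance : MulAction G V where
  smul g v := Quotient.liftOn' v (fun x => cls (act g x)) (fun x y h => cls_act (Quotient.sound' h))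
  one_smul v := by
    obtain ⟨x, rfl⟩ := cls_surj v
    show cls (act 1 x) = cls x
    rw [act_one]
  mul_smul g h v := by
    obtain ⟨x, rfl⟩ := cls_surj v
    show cls (act (g * h) x) = cls (act g (act h x))
    rw [act_mul]

theorem smul_cls (g : G) (x : F) : g • cls x = cls (act g x) := rfl

/-! ### the height -/

def theta : F →* Multiplicative ℤ :=
  FreeGroup.lift ![1, Multiplicative.ofAdd 1, Multiplicative.ofAdd 1]

theorem theta_a : theta a = 1 := by simp [theta]

theorem theta_of {i : Fin 3} (hi : i ≠ 0) : theta (FreeGroup.of i) = Multiplicative.ofAdd 1 := by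
  fin_cases i
  · exact absurd rfl hi
  · simp [theta]
  · simp [theta]

theorem theta_phi (k : Multiplicative ℤ) (x : F) : theta (phi k x) = theta x := by
  have : theta.comp (phi k).toMonoidHom = theta := by
    ext i
    obtain ⟨j, hj⟩ := phi_of k i
    show theta (phi k (FreeGroup.of i)) = theta (FreeGroup.of i)
    rw [hj, map_mul, map_zpow, theta_a, one_zpow, mul_one]
  exact DFunLike.congr_fun this x

def ht (v : V) : ℤ := Quotient.liftOn' v (fun x => Multiplicative.toAdd (theta x)) (by
  intro x y h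
  obtain ⟨j, rfl⟩ := cls_eq.1 (Quotient.sound' h)
  simp [theta_a])

theorem ht_cls (x : F) : ht (cls x) = Multiplicative.toAdd (theta x) := rfl

theorem ht_smul (g : G) (v : V) : ht (g • v) = Multiplicative.toAdd (theta g.left) + ht v := by
  obtain ⟨x, rfl⟩ := cls_surj v
  rw [smul_cls, ht_cls, ht_cls, act, map_mul, theta_phi]
  rfl

/-! ### the tree -/

def Adj0 (u v : V) : Prop := ∃ (x : F) (i : Fin 3), i ≠ 0 ∧ u = cls x ∧ v = cls (x * FreeGroup.of i)

theorem Adj0.ht {u v : V} (h : Adj0 u v) : ht v = GG.ht u + 1 := by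
  obtain ⟨x, i, hi, rfl, rfl⟩ := h
  rw [ht_cls, ht_cls, map_mul, theta_of hi]
  rfl

theorem Adj0.smul {u v : V} (h : Adj0 u v) (g : G) : Adj0 (g • u) (g • v) := by
  obtain ⟨x, i, hi, rfl, rfl⟩ := h
  refine ⟨act g x, i, hi, smul_cls g x, ?_⟩
  obtain ⟨j, hj⟩ := phi_of g.right i
  rw [smul_cls, act_mul_right, hj, ← mul_assoc, cls_mul_zpow]

def T : SimpleGraph V where
  Adj u v := Adj0 u v ∨ Adj0 v u
  symm := ⟨fun u v h => h.symm⟩
  loopless := ⟨fun u h => by
    have : Adj0 u u := h.elim id id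
    have := this.ht
    omega⟩

theorem T_adj {u v : V} : T.Adj u v ↔ Adj0 u v ∨ Adj0 v u := Iff.rfl

/-! ### crossing numbers -/

open Classical in
noncomputable def pi (s i : Fin 3) : Equiv.Perm (F × ℤ) where
  toFun p := (p.1 * FreeGroup.of i, p.2 + if i = s ∧ p.1 = 1 then 1 else 0)
  invFun q := (q.1 * (FreeGroup.of i)⁻¹, q.2 - if i = s ∧ q.1 * (FreeGroup.of i)⁻¹ = 1 then 1 else 0)
  left_inv p := by simp
  right_inv q := by simp

noncomputable def Psi (s : Fin 3) : F →* Equiv.Perm (F × ℤ) := FreeGroup.lift (fun i => (pi s i)⁻¹)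

theorem Psi_fst (s : Fin 3) (x : F) : ∀ p : F × ℤ, ((Psi s x)⁻¹ p).1 = p.1 * x := by
  induction x using FreeGroup.induction_on with
  | C1 => intro p; simp
  | of i => intro p; simp [Psi, pi]
  | inv_of i ih =>
    intro p
    have h1 : ((Psi s (FreeGroup.of i)⁻¹)⁻¹ p) = (pi s i)⁻¹ p := by simp [Psi]
    rw [h1]
    rfl
  | mul x y ihx ihy =>
    intro p
    rw [map_mul, mul_inv_rev, Equiv.Perm.mul_apply, ihy, ihx, mul_assoc]

/-- the number of (signed) crossings of the edge from `1` to `s` -/
noncomputable def chi (s : Fin 3) (x : F) : ℤ := ((Psi s x)⁻¹ (1, 0)).2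

theorem chi_one (s : Fin 3) : chi s 1 = 0 := by simp [chi]

open Classical in
theorem chi_mul_of (s i : Fin 3) (x : F) :
    chi s (x * FreeGroup.of i) = chi s x + if i = s ∧ x = 1 then 1 else 0 := by
  unfold chi
  rw [map_mul, mul_inv_rev, Equiv.Perm.mul_apply]
  have h1 : (Psi s (FreeGroup.of i))⁻¹ = pi s i := by simp [Psi]
  have h2 := Psi_fst s x (1, 0)
  rw [one_mul] at h2
  rw [h1]
  show ((Psi s x)⁻¹ (1, 0)).2 + (if i = s ∧ ((Psi s x)⁻¹ (1, 0)).1 = 1 then 1 else 0) = _
  rw [h2]

theorem chi_mul_a {s : Fin 3} (hs : s ≠ 0) (x : F) (j : ℤ) : chi s (x * a ^ j) = chi s x := by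
  have h1 : ∀ x, chi s (x * a) = chi s x := by
    intro x
    rw [chi_mul_of, if_neg (fun h => hs h.1.symm), add_zero]
  have h2 : ∀ x, chi s (x * a⁻¹) = chi s x := by
    intro x
    rw [← h1 (x * a⁻¹), inv_mul_cancel_right]
  induction j using Int.induction_on with
  | zero => simp
  | succ n ih => rw [zpow_add_one, ← mul_assoc, h1, ih]
  | pred n ih => rw [zpow_sub_one, ← mul_assoc, h2, ih]

theorem chi_cls {s : Fin 3} (hs : s ≠ 0) {x y : F} (h : cls x = cls y) (z : F) :
    chi s (z * x) = chi s (z * y) := by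
  obtain ⟨j, rfl⟩ := cls_eq.1 h
  rw [← mul_assoc, chi_mul_a hs]

/-- the function which separates the ends of the edge from `z⁻¹` to `z⁻¹ s` -/
noncomputable def sep (s : Fin 3) (hs : s ≠ 0) (z : F) (v : V) : ℤ :=
  Quotient.liftOn' v (fun x => chi s (z * x)) (fun x y h => chi_cls hs (Quotient.sound' h) z)

theorem sep_cls (s : Fin 3) (hs : s ≠ 0) (z x : F) : sep s hs z (cls x) = chi s (z * x) := rfl

theorem not_reachable (x : F) (s : Fin 3) (hs : s ≠ 0) :
    ¬ (T.deleteEdges {s(cls x, cls (x * FreeGroup.of s))}).Reachable (cls x)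
      (cls (x * FreeGroup.of s)) := by
  classical
  rintro ⟨w⟩
  have step0 : ∀ u v, Adj0 u v → s(u, v) ≠ s(cls x, cls (x * FreeGroup.of s)) →
      sep s hs x⁻¹ u = sep s hs x⁻¹ v := by
    rintro u v ⟨y, i, hi, rfl, rfl⟩ hne
    rw [sep_cls, sep_cls, ← mul_assoc, chi_mul_of, if_neg, add_zero]
    rintro ⟨rfl, h⟩
    apply hne
    rw [inv_mul_eq_one] at h
    rw [h]
  have key : ∀ {u v} (w : (T.deleteEdges {s(cls x, cls (x * FreeGroup.of s))}).Walk u v),
      sep s hs x⁻¹ u = sep s hs x⁻¹ v := by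
    intro u v w
    induction w with
    | nil => rfl
    | cons h p ih =>
      rw [← ih]
      rw [SimpleGraph.deleteEdges_adj] at h
      obtain ⟨h1, h2⟩ := h
      have h4 : s(_, _) ≠ s(cls x, cls (x * FreeGroup.of s)) := fun h5 => h2 h5
      rcases T_adj.1 h1 with h1 | h1
      · exact step0 _ _ h1 h4
      · refine (step0 _ _ h1 ?_).symm
        rw [Sym2.eq_swap]
        exact h4
  have h := key w
  rw [sep_cls, sep_cls, inv_mul_cancel, inv_mul_cancel_left, chi_one] at h
  have h2 := chi_mul_of s s 1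
  rw [one_mul, chi_one] at h2
  simp at h2
  omega

theorem isAcyclic : T.IsAcyclic := by
  rw [SimpleGraph.isAcyclic_iff_forall_adj_isBridge]
  intro u v h
  rw [SimpleGraph.isBridge_iff]
  rcases T_adj.1 h with h1 | h1
  · obtain ⟨x, i, hi, rfl, rfl⟩ := h1
    exact not_reachable x i hi
  · obtain ⟨x, i, hi, rfl, rfl⟩ := h1
    refine fun hr => not_reachable x i hi ?_
    rw [Sym2.eq_swap] at hr
    exact hr.symm

theorem reachable (y : F) : ∀ x, T.Reachable (cls x) (cls (x * y)) := by
  have hof : ∀ (i : Fin 3) (x : F), T.Reachable (cls x) (cls (x * FreeGroup.of i)) := by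
    intro i x
    by_cases hi : i = 0
    · subst hi
      have := cls_mul_zpow x 1
      rw [zpow_one] at this
      rw [this]
    · exact SimpleGraph.Adj.reachable (Or.inl ⟨x, i, hi, rfl, rfl⟩)
  induction y using FreeGroup.induction_on with
  | C1 => intro x; rw [mul_one]
  | of i => exact hof i
  | inv_of i ih =>
    intro x
    have := hof i (x * (FreeGroup.of i)⁻¹)
    rw [inv_mul_cancel_right] at this
    exact this.symm
  | mul y z ihy ihz =>
    intro x
    rw [← mul_assoc]
    exact (ihy x).trans (ihz (x * y))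

theorem isTree : T.IsTree := by
  refine ⟨?_, isAcyclic⟩
  have : Nonempty V := ⟨cls 1⟩
  refine SimpleGraph.Connected.mk (fun u v => ?_)
  obtain ⟨x, rfl⟩ := cls_surj u
  obtain ⟨y, rfl⟩ := cls_surj v
  have := reachable (x⁻¹ * y) x
  rwa [mul_inv_cancel_left] at this

end Pool.Agent.V8H66.GG
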