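import Pool.Agent.V8H66.GG.Basic

/-!
# Stabilizers for the action of Gersten's group on its tree
-/

set_option autoImplicit false
set_option linter.unusedSectionVars false
set_option linter.unusedVariables false

namespace Pool.Agent.V8H66.GG

open SemidirectProduct

theorem T_smul (g : G) (u v : V) (h : T.Adj u v) : T.Adj (g • u) (g • v) := by
  rcases T_adj.1 h with h | h
  · exact Or.inl (h.smul g)
  · exact Or.inr (h.smul g)

theorem no_inv (g : G) (u v : V) (h : T.Adj u v) : ¬ (g • u = v ∧ g • v = u) := by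
  rintro ⟨h1, h2⟩
  have e1 := ht_smul g u
  have e2 := ht_smul g v
  rw [h1] at e1
  rw [h2] at e2
  rcases T_adj.1 h with h | h
  · have := h.ht
    omega
  · have := h.ht
    omega

theorem inl_smul (x y : F) : (inl x : G) • cls y = cls (x * y) := by
  rw [smul_cls, act]
  simp

theorem vertex_orbit : ∃ S : Finset V, ∀ v : V, ∃ g : G, g • v ∈ S := by
  refine ⟨{cls 1}, fun v => ?_⟩
  obtain ⟨x, rfl⟩ := cls_surj v
  refine ⟨inl x⁻¹, ?_⟩
  rw [inl_smul, inv_mul_cancel]
  exact Finset.mem_singleton_self _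

theorem edge_orbit : ∃ E : Finset (V × V), ∀ u v : V, T.Adj u v → ∃ g : G, (g • u, g • v) ∈ E := by
  classical
  refine ⟨(Finset.univ.image (fun i : Fin 3 => (cls 1, cls (FreeGroup.of i)))) ∪
    (Finset.univ.image (fun i : Fin 3 => (cls (FreeGroup.of i), cls 1))), ?_⟩
  intro u v h
  rcases T_adj.1 h with ⟨x, i, hi, rfl, rfl⟩ | ⟨x, i, hi, rfl, rfl⟩
  · refine ⟨inl x⁻¹, ?_⟩
    rw [inl_smul, inl_smul, inv_mul_cancel, inv_mul_cancel_left]
    apply Finset.mem_union_left
    exact Finset.mem_image.2 ⟨i, Finset.mem_univ _, rfl⟩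
  · refine ⟨inl x⁻¹, ?_⟩
    rw [inl_smul, inl_smul, inv_mul_cancel, inv_mul_cancel_left]
    apply Finset.mem_union_right
    exact Finset.mem_image.2 ⟨i, Finset.mem_univ _, rfl⟩

/-- exponent sum of `a` -/
def alpha : F →* Multiplicative ℤ := FreeGroup.lift ![Multiplicative.ofAdd 1, 1, 1]

theorem alpha_a : alpha a = Multiplicative.ofAdd 1 := by simp [alpha]

theorem alpha_zpow (j : ℤ) : alpha (a ^ j) = Multiplicative.ofAdd j := by
  rw [map_zpow, alpha_a, ← ofAdd_zsmul]
  simp

theorem a_inj {i j : ℤ} (h : a ^ i = a ^ j) : i = j := by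
  have := congrArg alpha h
  rw [alpha_zpow, alpha_zpow] at this
  exact Multiplicative.ofAdd.injective this

/-- the stabilizer of the base vertex is free abelian of rank two -/
def stabHom : Multiplicative (Fin 2 → ℤ) →* G where
  toFun v := ⟨a ^ (Multiplicative.toAdd v 0), Multiplicative.ofAdd (Multiplicative.toAdd v 1)⟩
  map_one' := by
    ext <;> simp
  map_mul' v w := by
    ext
    · simp only [SemidirectProduct.mul_left, phi_a_zpow, toAdd_mul, Pi.add_apply, zpow_add]
    · simp only [SemidirectProduct.mul_right, toAdd_mul, Pi.add_apply, ofAdd_add]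

theorem stabHom_injective : Function.Injective stabHom := by
  intro v w h
  have h1 : a ^ (Multiplicative.toAdd v 0) = a ^ (Multiplicative.toAdd w 0) :=
    congrArg SemidirectProduct.left h
  have h2 : Multiplicative.ofAdd (Multiplicative.toAdd v 1) =
    Multiplicative.ofAdd (Multiplicative.toAdd w 1) := congrArg SemidirectProduct.right h
  have h3 := a_inj h1
  have h4 := Multiplicative.ofAdd.injective h2
  apply Multiplicative.toAdd.injective
  funext i
  fin_cases i
  · exact h3
  · exact h4

theorem stabHom_range : stabHom.range = MulAction.stabilizer G (cls 1) := by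
  ext g
  rw [MonoidHom.mem_range, MulAction.mem_stabilizer_iff, smul_cls, act, map_one, mul_one]
  constructor
  · rintro ⟨v, rfl⟩
    show cls (a ^ _) = cls 1
    exact (cls_eq.2 ⟨_, (one_mul _).symm⟩).symm
  · intro h
    obtain ⟨j, hj⟩ := cls_eq.1 h.symm
    rw [one_mul] at hj
    refine ⟨Multiplicative.ofAdd ![j, Multiplicative.toAdd g.right], ?_⟩
    ext
    · show a ^ j = g.left
      exact hj.symm
    · rfl

theorem vertex_stab (v : V) :
    ∃ n : ℕ, Nonempty (↥(MulAction.stabilizer G v) ≃* Multiplicative (Fin n → ℤ)) := by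
  refine ⟨2, ?_⟩
  obtain ⟨x, rfl⟩ := cls_surj v
  have h1 : cls x = (inl x : G) • cls 1 := by rw [inl_smul, mul_one]
  rw [h1, MulAction.stabilizer_smul_eq_stabilizer_map_conj, ← stabHom_range]
  have e1 : Multiplicative (Fin 2 → ℤ) ≃* stabHom.range := MonoidHom.ofInjective stabHom_injective
  have e2 := (stabHom.range).equivMapOfInjective (MulAut.conj (inl x : G)).toMonoidHom
    (MulAut.conj (inl x : G)).injective
  exact ⟨(e1.trans e2).symm⟩

theorem stab_inter {x : F} {i : Fin 3} (hi : i ≠ 0) {g : G}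
    (h1 : g ∈ MulAction.stabilizer G (cls x))
    (h2 : g ∈ MulAction.stabilizer G (cls (x * FreeGroup.of i))) (h3 : g.right = 1) : g = 1 := by
  rw [MulAction.mem_stabilizer_iff, smul_cls, act, h3, map_one, MulAut.one_apply] at h1 h2
  obtain ⟨j, hj⟩ := cls_eq.1 h1.symm
  obtain ⟨k, hk⟩ := cls_eq.1 h2.symm
  have h4 : a ^ j * FreeGroup.of i = FreeGroup.of i * a ^ k := by
    have : x * (a ^ j * FreeGroup.of i) = x * (FreeGroup.of i * a ^ k) := by
      rw [← mul_assoc, ← hj, mul_assoc, hk, mul_assoc]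
    exact mul_left_cancel this
  have h5 := congrArg (chi i) h4
  rw [chi_mul_a hi, chi_mul_of] at h5
  have h6 : chi i (a ^ j) = 0 := by
    have := chi_mul_a hi 1 j
    rwa [one_mul, chi_one] at this
  have h7 : chi i (FreeGroup.of i) = 1 := by
    have := chi_mul_of i i 1
    rw [one_mul, chi_one] at this
    simpa using this
  rw [h6, h7] at h5
  have h8 : a ^ j = 1 := by
    by_contra hne
    rw [if_neg (fun h => hne h.2)] at h5
    omega
  rw [h8, mul_one] at hj
  have h9 : g.left = 1 := by
    have := mul_eq_right.1 hj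
    exact this
  ext
  · rw [h9]; rfl
  · rw [h3]; rfl

theorem edge_stab (u v : V) (h : T.Adj u v) :
    IsCyclic ↥(MulAction.stabilizer G u ⊓ MulAction.stabilizer G v) := by
  have key : ∀ (x : F) (i : Fin 3), i ≠ 0 →
      IsCyclic ↥(MulAction.stabilizer G (cls x) ⊓ MulAction.stabilizer G (cls (x * FreeGroup.of i))) := by
    intro x i hi
    let f : ↥(MulAction.stabilizer G (cls x) ⊓ MulAction.stabilizer G (cls (x * FreeGroup.of i))) →*
        Multiplicative ℤ := (SemidirectProduct.rightHom).comp (Subgroup.subtype _)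
    apply isCyclic_of_injective f
    rw [injective_iff_map_eq_one]
    rintro ⟨g, hg⟩ h
    exact Subtype.ext (stab_inter hi hg.1 hg.2 h)
  rcases T_adj.1 h with ⟨x, i, hi, rfl, rfl⟩ | ⟨x, i, hi, rfl, rfl⟩
  · exact key x i hi
  · rw [inf_comm]
    exact key x i hi

end Pool.Agent.V8H66.GG
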